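import Mathlib

set_option autoImplicit false

namespace Pool.Agent.Results.MP_01d970_co.ThreeApex

/-- `G` has a crossing-free straight-line drawing in the plane: vertices are distinct points, no
vertex lies on an edge other than at its ends, and two distinct edges meet only in common ends -/
def HasPlaneDrawing {V : Type} (G : SimpleGraph V) : Prop :=
  ∃ f : V → ℝ × ℝ, Function.Injective f ∧
    (∀ u v w, G.Adj u v → f w ∈ segment ℝ (f u) (f v) → w = u ∨ w = v) ∧
    (∀ u v u' v', G.Adj u v → G.Adj u' v' → s(u, v) ≠ s(u', v') →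
      ∀ P, P ∈ segment ℝ (f u) (f v) → P ∈ segment ℝ (f u') (f v') →
        ∃ w, P = f w ∧ (w = u ∨ w = v) ∧ (w = u' ∨ w = v'))

/-- `G` is `k`-apex: deleting some at most `k` vertices leaves a graph with a plane drawing -/
def IsApex {V : Type} (k : ℕ) (G : SimpleGraph V) : Prop :=
  ∃ A : Finset V, A.card ≤ k ∧ HasPlaneDrawing (G.induce {v | v ∉ A})

/-- the graph of monochromatic edges -/
def mono {V : Type} (G : SimpleGraph V) (f : V → Fin 3) : SimpleGraph V where
  Adj u v := G.Adj u v ∧ f u = f v
  symm := ⟨fun _ _ h => ⟨h.1.symm, h.2.symm⟩⟩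
  loopless := ⟨fun _ h => G.loopless.irrefl _ h.1⟩

/-- the `3`-colouring `f` has clustering `c`: every monochromatic component has at most `c`
vertices -/
def HasClustering {V : Type} (G : SimpleGraph V) (f : V → Fin 3) (c : ℕ) : Prop :=
  ∀ v, {u | (mono G f).Reachable v u}.ncard ≤ c

section drawing
variable {V : Type} {G : SimpleGraph V}

/-- levelled graphs with integer positions -/
structure Levelled (G : SimpleGraph V) (ℓ p : V → ℤ) : Prop where
  inj : ∀ u v, ℓ u = ℓ v → p u = p v → u = v
  edge : ∀ u v, G.Adj u v → (ℓ v = ℓ u + 1 ∨ (ℓ v = ℓ u ∧ p v = p u + 1)) ∨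
    (ℓ u = ℓ v + 1 ∨ (ℓ u = ℓ v ∧ p u = p v + 1))
  mono : ∀ u v u' v', G.Adj u v → G.Adj u' v' → ℓ v = ℓ u + 1 → ℓ v' = ℓ u' + 1 → ℓ u = ℓ u' →
    p u < p u' → p v ≤ p v'

lemma seg_coord (a b a' b' : ℤ) (P : ℝ × ℝ)
    (h : P ∈ segment ℝ (((a : ℝ), (b : ℝ)) : ℝ × ℝ) ((a' : ℝ), (b' : ℝ))) :
    ∃ s : ℝ, 0 ≤ s ∧ s ≤ 1 ∧ P.1 = a + s * (a' - a) ∧ P.2 = b + s * (b' - b) := by
  obtain ⟨t, s, ht, hs, hts, rfl⟩ := h
  refine ⟨s, hs, by linarith, ?_, ?_⟩
  · have : t = 1 - s := by linarith
    subst this
    simp
    ring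
  · have : t = 1 - s := by linarith
    subst this
    simp
    ring

lemma int_between (z : ℤ) (s : ℝ) (h0 : 0 ≤ s) (h1 : s ≤ 1) (h : s = z) : z = 0 ∨ z = 1 := by
  subst h
  have h0' : (0 : ℤ) ≤ z := by exact_mod_cast h0
  have h1' : z ≤ 1 := by exact_mod_cast h1
  omega

/-- normalised edges -/
def Nrm (ℓ p : V → ℤ) (u v : V) : Prop := ℓ v = ℓ u + 1 ∨ (ℓ v = ℓ u ∧ p v = p u + 1)

lemma vertex_on {ℓ p : V → ℤ} (hL : Levelled G ℓ p) (u v w : V) (hn : Nrm ℓ p u v)
    (h : (((p w : ℝ), (ℓ w : ℝ)) : ℝ × ℝ) ∈
      segment ℝ (((p u : ℝ), (ℓ u : ℝ)) : ℝ × ℝ) ((p v : ℝ), (ℓ v : ℝ))) : w = u ∨ w = v := by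
  obtain ⟨s, hs0, hs1, hX, hY⟩ := seg_coord _ _ _ _ _ h
  simp only at hX hY
  rcases hn with h1 | ⟨h1, h2⟩
  · have e : s = ((ℓ w - ℓ u : ℤ) : ℝ) := by
      rw [h1] at hY; push_cast at hY ⊢; linarith
    rcases int_between _ _ hs0 hs1 e with h3 | h3
    · left
      rw [h3] at e
      have hs : s = 0 := by simpa using e
      subst hs
      apply hL.inj
      · omega
      · have : (p w : ℝ) = p u := by linarith
        exact_mod_cast this
    · right
      rw [h3] at e
      have hs : s = 1 := by simpa using e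
      subst hs
      apply hL.inj
      · omega
      · have : (p w : ℝ) = p v := by linarith
        exact_mod_cast this
  · have hl : ℓ w = ℓ u := by
      rw [h1] at hY
      have : (ℓ w : ℝ) = ℓ u := by linarith
      exact_mod_cast this
    have e : s = ((p w - p u : ℤ) : ℝ) := by
      rw [h2] at hX; push_cast at hX ⊢; linarith
    rcases int_between _ _ hs0 hs1 e with h3 | h3
    · left; apply hL.inj <;> omega
    · right; apply hL.inj <;> omega

/-- the main non-crossing statement for normalised edges -/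
lemma meet {ℓ p : V → ℤ} (hL : Levelled G ℓ p) (u v u' v' : V) (huv : G.Adj u v)
    (huv' : G.Adj u' v') (hn : Nrm ℓ p u v) (hn' : Nrm ℓ p u' v') (hne : ¬ (u = u' ∧ v = v'))
    (P : ℝ × ℝ)
    (h : P ∈ segment ℝ (((p u : ℝ), (ℓ u : ℝ)) : ℝ × ℝ) ((p v : ℝ), (ℓ v : ℝ)))
    (h' : P ∈ segment ℝ (((p u' : ℝ), (ℓ u' : ℝ)) : ℝ × ℝ) ((p v' : ℝ), (ℓ v' : ℝ))) :
    ∃ w, P = ((p w : ℝ), (ℓ w : ℝ)) ∧ (w = u ∨ w = v) ∧ (w = u' ∨ w = v') := by
  -- it suffices that `P` is an end of one of the two edges
  have key : ∀ w, P = ((p w : ℝ), (ℓ w : ℝ)) →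
      ∃ w, P = ((p w : ℝ), (ℓ w : ℝ)) ∧ (w = u ∨ w = v) ∧ (w = u' ∨ w = v') := by
    intro w hw
    refine ⟨w, hw, vertex_on hL u v w hn (hw ▸ h), vertex_on hL u' v' w hn' (hw ▸ h')⟩
  obtain ⟨s, hs0, hs1, hX, hY⟩ := seg_coord _ _ _ _ _ h
  obtain ⟨s', hs0', hs1', hX', hY'⟩ := seg_coord _ _ _ _ _ h'
  have end0 : s = 0 → P = ((p u : ℝ), (ℓ u : ℝ)) := by
    rintro rfl; apply Prod.ext
    · simp only; rw [hX]; ring
    · simp only; rw [hY]; ring
  have end1 : s = 1 → P = ((p v : ℝ), (ℓ v : ℝ)) := by
    rintro rfl; apply Prod.ext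
    · simp only; rw [hX]; ring
    · simp only; rw [hY]; ring
  have end0' : s' = 0 → P = ((p u' : ℝ), (ℓ u' : ℝ)) := by
    rintro rfl; apply Prod.ext
    · simp only; rw [hX']; ring
    · simp only; rw [hY']; ring
  have end1' : s' = 1 → P = ((p v' : ℝ), (ℓ v' : ℝ)) := by
    rintro rfl; apply Prod.ext
    · simp only; rw [hX']; ring
    · simp only; rw [hY']; ring
  by_cases e0 : s = 0
  · exact key u (end0 e0)
  by_cases e1 : s = 1
  · exact key v (end1 e1)
  by_cases e0' : s' = 0
  · exact key u' (end0' e0')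
  by_cases e1' : s' = 1
  · exact key v' (end1' e1')
  exfalso
  have hs0 : 0 < s := lt_of_le_of_ne hs0 (Ne.symm e0)
  have hs1 : s < 1 := lt_of_le_of_ne hs1 e1
  have hs0' : 0 < s' := lt_of_le_of_ne hs0' (Ne.symm e0')
  have hs1' : s' < 1 := lt_of_le_of_ne hs1' e1'
  rcases hn with h1 | ⟨h1, h2⟩
  · rcases hn' with h1' | ⟨h1', h2'⟩
    · -- both upward
      rw [h1] at hY
      rw [h1'] at hY'
      push_cast at hY hY'
      have hl : ℓ u = ℓ u' := by
        have a : (ℓ u : ℝ) < ℓ u' + 1 := by linarith
        have b : (ℓ u' : ℝ) < ℓ u + 1 := by linarith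
        have a' : ℓ u < ℓ u' + 1 := by exact_mod_cast a
        have b' : ℓ u' < ℓ u + 1 := by exact_mod_cast b
        omega
      have hss : s = s' := by
        rw [hl] at hY; linarith
      subst hss
      have hXX : (1 - s) * ((p u' : ℝ) - p u) + s * ((p v' : ℝ) - p v) = 0 := by
        rw [hX] at hX'; linarith
      rcases lt_trichotomy (p u) (p u') with hlt | heq | hgt
      · have hm := hL.mono u v u' v' huv huv' h1 h1' hl hlt
        have a : (p u : ℝ) < p u' := by exact_mod_cast hlt
        have b : (p v : ℝ) ≤ p v' := by exact_mod_cast hm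
        have : 0 < (1 - s) * ((p u' : ℝ) - p u) := mul_pos (by linarith) (by linarith)
        have : 0 ≤ s * ((p v' : ℝ) - p v) := mul_nonneg (by linarith) (by linarith)
        linarith
      · have hu : u = u' := hL.inj _ _ hl heq
        subst hu
        have : s * ((p v' : ℝ) - p v) = 0 := by
          have := hXX; simpa using this
        rcases mul_eq_zero.1 this with h3 | h3
        · exact e0 h3
        · apply hne
          refine ⟨rfl, hL.inj _ _ (by omega) ?_⟩
          have : (p v : ℝ) = p v' := by linarith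
          exact_mod_cast this
      · have hm := hL.mono u' v' u v huv' huv h1' h1 hl.symm hgt
        have a : (p u' : ℝ) < p u := by exact_mod_cast hgt
        have b : (p v' : ℝ) ≤ p v := by exact_mod_cast hm
        have : 0 < (1 - s) * ((p u : ℝ) - p u') := mul_pos (by linarith) (by linarith)
        have : 0 ≤ s * ((p v : ℝ) - p v') := mul_nonneg (by linarith) (by linarith)
        linarith
    · -- upward, horizontal
      rw [h1] at hY
      rw [h1'] at hY'
      have e : s = ((ℓ u' - ℓ u : ℤ) : ℝ) := by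
        push_cast at hY hY' ⊢; linarith
      rcases int_between _ _ hs0.le hs1.le e with h3 | h3
      · rw [h3] at e; simp at e; exact e0 e
      · rw [h3] at e; simp at e; exact e1 e
  · rcases hn' with h1' | ⟨h1', h2'⟩
    · rw [h1] at hY
      rw [h1'] at hY'
      have e : s' = ((ℓ u - ℓ u' : ℤ) : ℝ) := by
        push_cast at hY hY' ⊢; linarith
      rcases int_between _ _ hs0'.le hs1'.le e with h3 | h3
      · rw [h3] at e; simp at e; exact e0' e
      · rw [h3] at e; simp at e; exact e1' e
    · -- both horizontal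
      rw [h1] at hY
      rw [h1'] at hY'
      have hl : ℓ u = ℓ u' := by
        have : (ℓ u : ℝ) = ℓ u' := by linarith
        exact_mod_cast this
      rw [h2] at hX
      rw [h2'] at hX'
      push_cast at hX hX'
      have hp : p u = p u' := by
        have a : (p u : ℝ) < p u' + 1 := by linarith
        have b : (p u' : ℝ) < p u + 1 := by linarith
        have a' : p u < p u' + 1 := by exact_mod_cast a
        have b' : p u' < p u + 1 := by exact_mod_cast b
        omega
      apply hne
      exact ⟨hL.inj _ _ hl hp, hL.inj _ _ (by omega) (by omega)⟩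

lemma drawing_of_levelled {ℓ p : V → ℤ} (hL : Levelled G ℓ p) : HasPlaneDrawing G := by
  refine ⟨fun v => ((p v : ℝ), (ℓ v : ℝ)), ?_, ?_, ?_⟩
  · intro u v h
    simp only [Prod.mk.injEq, Int.cast_inj] at h
    exact hL.inj _ _ h.2 h.1
  · intro u v w huv h
    rcases hL.edge u v huv with hn | hn
    · exact vertex_on hL u v w hn h
    · rw [segment_symm] at h
      exact (vertex_on hL v u w hn h).symm
  · intro u v u' v' huv huv' hne P h h'
    rcases hL.edge u v huv with hn | hn <;> rcases hL.edge u' v' huv' with hn' | hn'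
    · exact meet hL u v u' v' huv huv' hn hn' (by rintro ⟨rfl, rfl⟩; exact hne rfl) P h h'
    · rw [segment_symm] at h'
      obtain ⟨w, h1, h2, h3⟩ := meet hL u v v' u' huv huv'.symm hn hn'
        (by rintro ⟨rfl, rfl⟩; exact hne Sym2.eq_swap) P h h'
      exact ⟨w, h1, h2, h3.symm⟩
    · rw [segment_symm] at h
      obtain ⟨w, h1, h2, h3⟩ := meet hL v u u' v' huv.symm huv' hn hn'
        (by rintro ⟨rfl, rfl⟩; exact hne Sym2.eq_swap) P h h'
      exact ⟨w, h1, h2.symm, h3⟩
    · rw [segment_symm] at h h'
      obtain ⟨w, h1, h2, h3⟩ := meet hL v u v' u' huv.symm huv'.symm hn hn'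
        (by rintro ⟨rfl, rfl⟩; exact hne rfl) P h h'
      exact ⟨w, h1, h2.symm, h3.symm⟩

end drawing


section gadget

/-- vertices of the gadget -/
inductive U (c : ℕ) : Type
  | x (i : Fin (c + 1))
  | y (i : Fin (c + 1))
  | z (i : Fin (c + 1)) (t : Fin (2 * c))
  | w (i : Fin (c + 1)) (t : Fin (2 * c))
  deriving DecidableEq, Fintype

open U

/-- upward or rightward edges of the gadget -/
def dir {c : ℕ} : U c → U c → Prop
  | x i, x j => (j : ℕ) = i + 1
  | x i, z j _ => i = j
  | x i, w j _ => (i : ℕ) = j + 1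
  | z i _, y j => i = j
  | w i _, y j => i = j
  | _, _ => False

/-- level of a vertex -/
def lev {c : ℕ} : U c → ℤ
  | x _ => 0
  | y _ => 2
  | z _ _ => 1
  | w _ _ => 1

/-- position of a vertex -/
def pos {c : ℕ} : U c → ℤ
  | x i => (i : ℕ)
  | y i => (i : ℕ)
  | z i t => (2 * (i : ℕ)) * (2 * c) + (t : ℕ)
  | w i t => (2 * (i : ℕ) + 1) * (2 * c) + (t : ℕ)

lemma dir_lev {c : ℕ} {u v : U c} (h : dir u v) :
    lev v = lev u + 1 ∨ (lev v = lev u ∧ pos v = pos u + 1) := by
  cases u <;> cases v <;> simp_all [dir, lev, pos]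

lemma dir_irrefl {c : ℕ} (u : U c) : ¬ dir u u := by
  intro h
  have := dir_lev h
  omega

/-- the gadget -/
def gad (c : ℕ) : SimpleGraph (U c) where
  Adj u v := dir u v ∨ dir v u
  symm := ⟨fun _ _ h => h.symm⟩
  loopless := ⟨fun u h => by rcases h with h | h <;> exact dir_irrefl u h⟩

lemma block_lt (M a b t s : ℤ) (ht : 0 ≤ t) (ht' : t < M) (hs : 0 ≤ s) (_hs' : s < M)
    (h : a < b) : a * M + t < b * M + s := by
  have : (a + 1) * M ≤ b * M := by
    apply mul_le_mul_of_nonneg_right (by omega) (by omega)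
  have h2 : (a + 1) * M = a * M + M := by ring
  omega

lemma block_inj (M a b t s : ℤ) (ht : 0 ≤ t) (ht' : t < M) (hs : 0 ≤ s) (hs' : s < M)
    (h : a * M + t = b * M + s) : a = b ∧ t = s := by
  rcases lt_trichotomy a b with h1 | h1 | h1
  · have := block_lt M a b t s ht ht' hs hs' h1; omega
  · subst h1; exact ⟨rfl, by omega⟩
  · have := block_lt M b a s t hs hs' ht ht' h1; omega

lemma lev_inj {c : ℕ} (u v : U c) (h : lev u = lev v) (h' : pos u = pos v) : u = v := by
  have hM : ∀ t : Fin (2 * c), (0 : ℤ) ≤ ((t : ℕ) : ℤ) ∧ ((t : ℕ) : ℤ) < 2 * c := by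
    intro t
    have := t.2
    omega
  cases u with
  | x i => cases v with
    | x j => simp [pos] at h'; congr; exact Fin.ext h'
    | y j => simp [lev] at h
    | z j t => simp [lev] at h
    | w j t => simp [lev] at h
  | y i => cases v with
    | x j => simp [lev] at h
    | y j => simp [pos] at h'; congr; exact Fin.ext h'
    | z j t => simp [lev] at h
    | w j t => simp [lev] at h
  | z i t => cases v with
    | x j => simp [lev] at h
    | y j => simp [lev] at h
    | z j s =>
      simp only [pos] at h'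
      obtain ⟨h1, h2⟩ := block_inj (2 * c) _ _ _ _ (hM t).1 (hM t).2 (hM s).1 (hM s).2 h'
      have e1 : i = j := Fin.ext (by omega)
      have e2 : t = s := Fin.ext (by omega)
      rw [e1, e2]
    | w j s =>
      simp only [pos] at h'
      obtain ⟨h1, h2⟩ := block_inj (2 * c) _ _ _ _ (hM t).1 (hM t).2 (hM s).1 (hM s).2 h'
      omega
  | w i t => cases v with
    | x j => simp [lev] at h
    | y j => simp [lev] at h
    | z j s =>
      simp only [pos] at h'
      obtain ⟨h1, h2⟩ := block_inj (2 * c) _ _ _ _ (hM t).1 (hM t).2 (hM s).1 (hM s).2 h'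
      omega
    | w j s =>
      simp only [pos] at h'
      obtain ⟨h1, h2⟩ := block_inj (2 * c) _ _ _ _ (hM t).1 (hM t).2 (hM s).1 (hM s).2 h'
      have e1 : i = j := Fin.ext (by omega)
      have e2 : t = s := Fin.ext (by omega)
      rw [e1, e2]

/-- the block number of a middle vertex, and the vertex number of a lower or upper one -/
def blk {c : ℕ} : U c → ℤ
  | x i => (i : ℕ)
  | y i => (i : ℕ)
  | z i _ => 2 * (i : ℕ)
  | w i _ => 2 * (i : ℕ) + 1

lemma dir_mono {c : ℕ} {u v u' v' : U c} (h : dir u v) (h' : dir u' v') (hl : lev v = lev u + 1)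
    (hl' : lev v' = lev u' + 1) (he : lev u = lev u') (hp : pos u < pos u') : pos v ≤ pos v' := by
  have hM : ∀ t : Fin (2 * c), (0 : ℤ) ≤ ((t : ℕ) : ℤ) ∧ ((t : ℕ) : ℤ) < 2 * c := by
    intro t
    have := t.2
    omega
  -- positions of middle vertices are ordered by blocks
  have low : ∀ (a b : ℤ) (t s : Fin (2 * c)), a < b →
      a * (2 * c) + ((t : ℕ) : ℤ) ≤ b * (2 * c) + ((s : ℕ) : ℤ) := fun a b t s hab =>
    (block_lt (2 * c) a b _ _ (hM t).1 (hM t).2 (hM s).1 (hM s).2 hab).le
  have up : ∀ (a b : ℤ) (t s : Fin (2 * c)),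
      a * (2 * c) + ((t : ℕ) : ℤ) < b * (2 * c) + ((s : ℕ) : ℤ) → a ≤ b := by
    intro a b t s hab
    by_contra hcon
    have := block_lt (2 * c) b a _ _ (hM s).1 (hM s).2 (hM t).1 (hM t).2 (not_le.1 hcon)
    omega
  cases u with
  | x i =>
    cases u' with
    | x i' =>
      simp only [pos] at hp
      cases v with
      | x j => simp [lev] at hl
      | y j => simp [dir] at h
      | z j t =>
        simp only [dir] at h
        subst h
        cases v' with
        | x j => simp [lev] at hl'
        | y j => simp [dir] at h'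
        | z j' t' =>
          simp only [dir] at h'
          subst h'
          simp only [pos]
          exact low _ _ _ _ (by omega)
        | w j' t' =>
          simp only [dir] at h'
          simp only [pos]
          by_cases hc : (j' : ℕ) = i
          · apply low; omega
          · apply low; omega
      | w j t =>
        simp only [dir] at h
        cases v' with
        | x j => simp [lev] at hl'
        | y j => simp [dir] at h'
        | z j' t' =>
          simp only [dir] at h'
          subst h'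
          simp only [pos]
          exact low _ _ _ _ (by omega)
        | w j' t' =>
          simp only [dir] at h'
          simp only [pos]
          apply low; omega
    | y i' => simp [lev] at he
    | z i' t => simp [lev] at he
    | w i' t => simp [lev] at he
  | y i => cases v <;> simp [dir] at h
  | z i t =>
    cases v with
    | x j => simp [dir] at h
    | z j s => simp [dir] at h
    | w j s => simp [dir] at h
    | y j =>
      simp only [dir] at h
      subst h
      cases u' with
      | x i' => simp [lev] at he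
      | y i' => simp [lev] at he
      | z i' t' =>
        cases v' with
        | x j => simp [dir] at h'
        | z j s => simp [dir] at h'
        | w j s => simp [dir] at h'
        | y j' =>
          simp only [dir] at h'
          subst h'
          simp only [pos] at hp ⊢
          have := up _ _ _ _ hp
          omega
      | w i' t' =>
        cases v' with
        | x j => simp [dir] at h'
        | z j s => simp [dir] at h'
        | w j s => simp [dir] at h'
        | y j' =>
          simp only [dir] at h'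
          subst h'
          simp only [pos] at hp ⊢
          have := up _ _ _ _ hp
          omega
  | w i t =>
    cases v with
    | x j => simp [dir] at h
    | z j s => simp [dir] at h
    | w j s => simp [dir] at h
    | y j =>
      simp only [dir] at h
      subst h
      cases u' with
      | x i' => simp [lev] at he
      | y i' => simp [lev] at he
      | z i' t' =>
        cases v' with
        | x j => simp [dir] at h'
        | z j s => simp [dir] at h'
        | w j s => simp [dir] at h'
        | y j' =>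
          simp only [dir] at h'
          subst h'
          simp only [pos] at hp ⊢
          have := up _ _ _ _ hp
          omega
      | w i' t' =>
        cases v' with
        | x j => simp [dir] at h'
        | z j s => simp [dir] at h'
        | w j s => simp [dir] at h'
        | y j' =>
          simp only [dir] at h'
          subst h'
          simp only [pos] at hp ⊢
          have := up _ _ _ _ hp
          omega

lemma gad_triangle {c : ℕ} (a b d : U c) (h1 : (gad c).Adj a b) (h2 : (gad c).Adj b d)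
    (h3 : (gad c).Adj a d) : False := by
  cases a <;> cases b <;> cases d <;> simp_all [gad, dir] <;> omega

/-- attachments: a set of apex vertices for each gadget vertex, disjoint along edges -/
def Att (c : ℕ) : Type :=
  {S : U c → Finset (Fin 3) // ∀ u v, (gad c).Adj u v → Disjoint (S u) (S v)}

instance (c : ℕ) : Finite (Att c) := by unfold Att; infer_instance

/-- vertices of the whole graph -/
abbrev W (c : ℕ) : Type := Fin 3 ⊕ (Att c × Fin (3 * c + 1) × U c)

/-- adjacency of the whole graph -/
def adjW {c : ℕ} : W c → W c → Prop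
  | Sum.inl _, Sum.inl _ => False
  | Sum.inl a, Sum.inr q => a ∈ q.1.1 q.2.2
  | Sum.inr q, Sum.inl a => a ∈ q.1.1 q.2.2
  | Sum.inr q, Sum.inr q' => q.1 = q'.1 ∧ q.2.1 = q'.2.1 ∧ (gad c).Adj q.2.2 q'.2.2

/-- the whole graph -/
def gW (c : ℕ) : SimpleGraph (W c) where
  Adj := adjW
  symm := ⟨by
    rintro (a | q) (b | q') h
    · exact h
    · exact h
    · exact h
    · exact ⟨h.1.symm, h.2.1.symm, h.2.2.symm⟩⟩
  loopless := ⟨by
    rintro (a | q) h
    · exact h
    · exact (gad c).loopless.irrefl _ h.2.2⟩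

lemma gW_triangle {c : ℕ} (a b d : W c) (h1 : (gW c).Adj a b) (h2 : (gW c).Adj b d)
    (h3 : (gW c).Adj a d) : False := by
  have key : ∀ (i : Fin 3) (q q' : Att c × Fin (3 * c + 1) × U c),
      i ∈ q.1.1 q.2.2 → i ∈ q'.1.1 q'.2.2 →
      (q.1 = q'.1 ∧ q.2.1 = q'.2.1 ∧ (gad c).Adj q.2.2 q'.2.2) → False := by
    rintro i ⟨S, n, u⟩ ⟨S', n', u'⟩ hi hi' ⟨rfl, rfl, h⟩
    exact (Finset.disjoint_left.1 (S.2 u u' h)) hi hi'
  rcases a with a | a <;> rcases b with b | b <;> rcases d with d | d
  · exact h1
  · exact h1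
  · exact h3
  · exact key a b d h1 h3 h2
  · exact h2
  · exact key b a d h1 h2 h3
  · exact key d a b h3 h2 h1
  · exact gad_triangle _ _ _ h1.2.2 h2.2.2 h3.2.2

lemma gW_cliqueFree (c : ℕ) : (gW c).CliqueFree 3 := by
  classical
  intro s hs
  rw [SimpleGraph.is3Clique_iff] at hs
  obtain ⟨a, b, d, h1, h2, h3, _⟩ := hs
  exact gW_triangle a b d h1 h3 h2

lemma gW_apex (c : ℕ) : IsApex 3 (gW c) := by
  classical
  refine ⟨Finset.univ.image Sum.inl, ?_, ?_⟩
  · refine Finset.card_image_le.trans ?_
    simp
  · obtain ⟨N, ⟨e⟩⟩ := Finite.exists_equiv_fin (Att c × Fin (3 * c + 1))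
    let ℓ : {v : W c | v ∉ (Finset.univ.image Sum.inl : Finset (W c))} → ℤ := fun v =>
      match v.1 with
      | Sum.inl _ => 0
      | Sum.inr q => 4 * ((e (q.1, q.2.1) : ℕ) : ℤ) + lev q.2.2
    let p : {v : W c | v ∉ (Finset.univ.image Sum.inl : Finset (W c))} → ℤ := fun v =>
      match v.1 with
      | Sum.inl _ => 0
      | Sum.inr q => pos q.2.2
    have hlev : ∀ u : U c, 0 ≤ lev u ∧ lev u ≤ 2 := by
      intro u; cases u <;> simp [lev]
    have hout : ∀ a : Fin 3, ¬ ((Sum.inl a : W c) ∈
        {v : W c | v ∉ (Finset.univ.image Sum.inl : Finset (W c))}) := by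
      intro a h
      apply h
      simp
    apply drawing_of_levelled (ℓ := ℓ) (p := p)
    constructor
    · rintro ⟨a | q, hq⟩ ⟨b | q', hq'⟩ h1 h2
      · exact absurd hq (hout a)
      · exact absurd hq (hout a)
      · exact absurd hq' (hout b)
      · simp only [ℓ, p] at h1 h2
        have a1 := hlev q.2.2
        have a2 := hlev q'.2.2
        have a3 : e (q.1, q.2.1) = e (q'.1, q'.2.1) := Fin.ext (by omega)
        have a4 := e.injective a3
        rw [Prod.mk.injEq] at a4
        have a5 : q.2.2 = q'.2.2 := by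
          apply lev_inj _ _ _ h2
          rw [a3] at h1
          omega
        congr 2
        exact Prod.ext a4.1 (Prod.ext a4.2 a5)
    · rintro ⟨a | q, hq⟩ ⟨b | q', hq'⟩ hadj
      · exact absurd hq (hout a)
      · exact absurd hq (hout a)
      · exact absurd hq' (hout b)
      · have h' : q.1 = q'.1 ∧ q.2.1 = q'.2.1 ∧ (gad c).Adj q.2.2 q'.2.2 := hadj
        simp only [ℓ, p]
        rw [h'.1, h'.2.1]
        rcases h'.2.2 with h | h
        · left
          have := dir_lev h
          omega
        · right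
          have := dir_lev h
          omega
    · rintro ⟨a | q, hq⟩ ⟨b | r, hr⟩ ⟨a' | q', hq'⟩ ⟨b' | r', hr'⟩ hadj hadj' h1 h2 h3 h4
      all_goals first
        | exact absurd hq (hout _)
        | exact absurd hr (hout _)
        | exact absurd hq' (hout _)
        | exact absurd hr' (hout _)
        | skip
      have k : q.1 = r.1 ∧ q.2.1 = r.2.1 ∧ (gad c).Adj q.2.2 r.2.2 := hadj
      have k' : q'.1 = r'.1 ∧ q'.2.1 = r'.2.1 ∧ (gad c).Adj q'.2.2 r'.2.2 := hadj'
      simp only [ℓ, p] at h1 h2 h3 h4 ⊢
      rw [← k.1, ← k.2.1] at h1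
      rw [← k'.1, ← k'.2.1] at h2
      have a1 := hlev q.2.2
      have a2 := hlev q'.2.2
      have d1 : dir q.2.2 r.2.2 := by
        rcases k.2.2 with h | h
        · exact h
        · have := dir_lev h; omega
      have d2 : dir q'.2.2 r'.2.2 := by
        rcases k'.2.2 with h | h
        · exact h
        · have := dir_lev h; omega
      exact dir_mono d1 d2 (by omega) (by omega) (by omega) h4

end gadget


section main
variable {c : ℕ}

open U

/-- a large connected monochromatic set contradicts the clustering bound -/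
lemma no_large {V : Type} [Finite V] {G : SimpleGraph V} {f : V → Fin 3} {c : ℕ}
    (hf : HasClustering G f c) (v : V) (K : Finset V) (hK : ∀ u ∈ K, (mono G f).Reachable v u) :
    K.card ≤ c := by
  have h1 : (K : Set V) ⊆ {u | (mono G f).Reachable v u} := fun u hu => hK u hu
  have h2 := Set.ncard_le_ncard h1 (Set.toFinite _)
  rw [Set.ncard_coe_finset] at h2
  exact h2.trans (hf v)

/-- a monochromatic star has fewer than `c` leaves -/
lemma star_small {V ι : Type} [Finite V] [DecidableEq V] {G : SimpleGraph V} {f : V → Fin 3}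
    {c : ℕ} (hf : HasClustering G f c) (v : V) (s : Finset ι) (g : ι → V)
    (hg : Function.Injective g) (h : ∀ i ∈ s, G.Adj v (g i) ∧ f v = f (g i)) :
    s.card + 1 ≤ c := by
  have h1 : (insert v (s.image g)).card = s.card + 1 := by
    rw [Finset.card_insert_of_notMem, Finset.card_image_of_injective _ hg]
    intro hv
    rw [Finset.mem_image] at hv
    obtain ⟨i, hi, hv⟩ := hv
    exact (h i hi).1.ne hv.symm
  rw [← h1]
  apply no_large hf v
  intro u hu
  rw [Finset.mem_insert, Finset.mem_image] at hu
  rcases hu with rfl | ⟨i, hi, rfl⟩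
  · exact SimpleGraph.Reachable.refl _
  · apply SimpleGraph.Adj.reachable
    exact ⟨(h i hi).1, (h i hi).2⟩

/-- in some copy no gadget vertex has the colour of an adjacent apex vertex -/
lemma good_copy {f : W c → Fin 3} (hf : HasClustering (gW c) f c) (S : Att c) :
    ∃ n : Fin (3 * c + 1), ∀ (u : U c) (a : Fin 3), a ∈ S.1 u →
      f (Sum.inr (S, n, u)) ≠ f (Sum.inl a) := by
  classical
  by_contra hcon
  push Not at hcon
  choose u a hua hfe using hcon
  obtain ⟨b, _, hb⟩ := Finset.exists_lt_card_fiber_of_mul_lt_card_of_maps_to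
    (s := (Finset.univ : Finset (Fin (3 * c + 1)))) (t := (Finset.univ : Finset (Fin 3)))
    (f := a) (n := c) (fun _ _ => Finset.mem_univ _) (by simp)
  have := star_small hf (Sum.inl b) (Finset.univ.filter fun n => a n = b)
    (fun n => (Sum.inr (S, n, u n) : W c)) (by
      intro n n' h
      simp only [Sum.inr.injEq, Prod.mk.injEq] at h
      exact h.2.1) (by
      intro n hn
      rw [Finset.mem_filter] at hn
      have h1 := hua n
      have h2 := hfe n
      rw [hn.2] at h1 h2
      exact ⟨h1, h2.symm⟩)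
  omega

/-- the spine of a gadget is not monochromatic -/
lemma spine {f : W c → Fin 3} (hf : HasClustering (gW c) f c) (S : Att c)
    (n : Fin (3 * c + 1)) (h : ∀ i j : Fin (c + 1), (j : ℕ) = i + 1 →
      f (Sum.inr (S, n, x i)) = f (Sum.inr (S, n, x j))) : False := by
  classical
  have hreach : ∀ (k : ℕ) (hk : k < c + 1), (mono (gW c) f).Reachable
      (Sum.inr (S, n, x ⟨0, by omega⟩)) (Sum.inr (S, n, x ⟨k, hk⟩)) := by
    intro k
    induction k with
    | zero => intro _; exact SimpleGraph.Reachable.refl _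
    | succ k ih =>
      intro hk
      refine (ih (by omega)).trans (SimpleGraph.Adj.reachable ?_)
      refine ⟨⟨rfl, rfl, Or.inl ?_⟩, h ⟨k, by omega⟩ ⟨k + 1, hk⟩ rfl⟩
      simp [dir]
  have := no_large hf (Sum.inr (S, n, x ⟨0, by omega⟩))
    (Finset.univ.image (fun i : Fin (c + 1) => (Sum.inr (S, n, x i) : W c))) (by
      intro u hu
      rw [Finset.mem_image] at hu
      obtain ⟨i, _, rfl⟩ := hu
      exact hreach i.1 i.2)
  rw [Finset.card_image_of_injective] at this
  · simp at this
  · intro i j h
    simpa using h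

/-- attachment for a rainbow apex set -/
def attR (c : ℕ) : Att c := ⟨fun u => match u with
  | x i => if (i : ℕ) = 0 then Finset.univ else ∅
  | _ => ∅, by
    intro u v h
    rcases h with h | h <;> cases u <;> cases v <;> simp_all [dir]⟩

/-- attachment for a constant apex colouring -/
def attC (c : ℕ) : Att c := ⟨fun u => match u with
  | x i => if (i : ℕ) % 2 = 0 then {0} else {1}
  | y _ => {0}
  | _ => {2}, by
    intro u v h
    rcases h with h | h <;> cases u <;> cases v <;> simp_all [dir] <;>
      split_ifs <;> simp_all <;> omega⟩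

/-- attachment for the remaining apex colourings -/
def attT (c : ℕ) (p q r : Fin 3) (hpq : p ≠ q) (hqr : q ≠ r) (hpr : p ≠ r) : Att c :=
  ⟨fun u => match u with
  | x i => if (i : ℕ) % 2 = 0 then {q} else {r}
  | z i _ => if (i : ℕ) % 2 = 0 then {p, r} else {p, q}
  | _ => ∅, by
    intro u v h
    rcases h with h | h <;> cases u <;> cases v <;> simp_all [dir] <;>
      split_ifs <;> simp_all <;> omega⟩


/-- two vertices with `2c` common neighbours, all these vertices avoiding one colour, have the same
colour -/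
lemma same_of_common {V : Type} [Finite V] {G : SimpleGraph V} {f : V → Fin 3}
    {c : ℕ} (hf : HasClustering G f c) (a b : V) (g : Fin (2 * c) → V)
    (hg : Function.Injective g) (ha : ∀ t, G.Adj a (g t)) (hb : ∀ t, G.Adj b (g t))
    (k : Fin 3) (hka : f a ≠ k) (hkb : f b ≠ k) (hkg : ∀ t, f (g t) ≠ k) : f a = f b := by
  classical
  by_contra hne
  have h3 : ∀ i j l k : Fin 3, i ≠ k → j ≠ k → l ≠ k → i ≠ j → i = l ∨ j = l := by decide
  have h1 := star_small hf a (Finset.univ.filter fun t => f a = f (g t)) g hg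
    (fun t ht => ⟨ha t, (Finset.mem_filter.1 ht).2⟩)
  have h2 := star_small hf b (Finset.univ.filter fun t => f b = f (g t)) g hg
    (fun t ht => ⟨hb t, (Finset.mem_filter.1 ht).2⟩)
  have hun : (Finset.univ : Finset (Fin (2 * c))) =
      (Finset.univ.filter fun t => f a = f (g t)) ∪ (Finset.univ.filter fun t => f b = f (g t)) := by
    ext t
    simp only [Finset.mem_univ, Finset.mem_union, Finset.mem_filter, true_and, true_iff]
    exact h3 _ _ _ k hka hkb (hkg t) hne
  have hcard := Finset.card_union_le (Finset.univ.filter fun t => f a = f (g t))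
    (Finset.univ.filter fun t => f b = f (g t))
  rw [← hun, Finset.card_univ, Fintype.card_fin] at hcard
  omega

lemma main (f : W c → Fin 3) (hf : HasClustering (gW c) f c) : False := by
  classical
  have hcases : ∀ φ : Fin 3 → Fin 3, (∀ k, ∃ i, φ i = k) ∨ (∀ i, φ i = φ 0) ∨
      ∃ p q r : Fin 3, p ≠ q ∧ q ≠ r ∧ p ≠ r ∧ φ p ≠ φ q ∧ φ q = φ r := by decide
  rcases hcases (fun i => f (Sum.inl i)) with h | h | ⟨p, q, r, hpq, hqr, hpr, h1, h2⟩
  · obtain ⟨n, hn⟩ := good_copy hf (attR c)
    obtain ⟨i, hi⟩ := h (f (Sum.inr (attR c, n, x 0)))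
    exact hn (x 0) i (by simp [attR]) hi.symm
  · obtain ⟨n, hn⟩ := good_copy hf (attC c)
    have hav : ∀ u : U c, f (Sum.inr (attC c, n, u)) ≠ f (Sum.inl 0) := by
      intro u
      cases u with
      | x i =>
        by_cases hi : (i : ℕ) % 2 = 0
        · exact hn (x i) 0 (by simp [attC, hi])
        · have := hn (x i) 1 (by simp [attC, hi])
          rwa [h 1] at this
      | y i => exact hn (y i) 0 (by simp [attC])
      | z i t =>
        have := hn (z i t) 2 (by simp [attC])
        rwa [h 2] at this
      | w i t =>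
        have := hn (w i t) 2 (by simp [attC])
        rwa [h 2] at this
    apply spine hf (attC c) n
    intro i j hij
    have e1 : f (Sum.inr (attC c, n, x i)) = f (Sum.inr (attC c, n, y i)) := by
      refine same_of_common hf _ _ (fun t => (Sum.inr (attC c, n, z i t) : W c)) ?_ ?_ ?_
        (f (Sum.inl 0)) (hav _) (hav _) (fun t => hav _)
      · intro t t' h; simpa using h
      · intro t; exact ⟨rfl, rfl, Or.inl rfl⟩
      · intro t; exact ⟨rfl, rfl, Or.inr rfl⟩
    have e2 : f (Sum.inr (attC c, n, x j)) = f (Sum.inr (attC c, n, y i)) := by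
      refine same_of_common hf _ _ (fun t => (Sum.inr (attC c, n, w i t) : W c)) ?_ ?_ ?_
        (f (Sum.inl 0)) (hav _) (hav _) (fun t => hav _)
      · intro t t' h; simpa using h
      · intro t; exact ⟨rfl, rfl, Or.inl hij⟩
      · intro t; exact ⟨rfl, rfl, Or.inr rfl⟩
    rw [e1, e2]
  · obtain ⟨n, hn⟩ := good_copy hf (attT c p q r hpq hqr hpr)
    have hx : ∀ i, f (Sum.inr (attT c p q r hpq hqr hpr, n, x i)) ≠ f (Sum.inl q) := by
      intro i
      by_cases hi : (i : ℕ) % 2 = 0
      · exact hn (x i) q (by simp [attT, hi])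
      · have := hn (x i) r (by simp [attT, hi])
        rwa [← h2] at this
    have hz : ∀ i t, f (Sum.inr (attT c p q r hpq hqr hpr, n, z i t)) ≠ f (Sum.inl q) ∧
        f (Sum.inr (attT c p q r hpq hqr hpr, n, z i t)) ≠ f (Sum.inl p) := by
      intro i t
      by_cases hi : (i : ℕ) % 2 = 0
      · have a1 := hn (z i t) p (by simp [attT, hi])
        have a2 := hn (z i t) r (by simp [attT, hi])
        rw [← h2] at a2
        exact ⟨a2, a1⟩
      · have a1 := hn (z i t) p (by simp [attT, hi])
        have a2 := hn (z i t) q (by simp [attT, hi])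
        exact ⟨a2, a1⟩
    have h3 : ∀ a b k l : Fin 3, k ≠ l → a ≠ k → a ≠ l → b ≠ k → b ≠ l → a = b := by decide
    have hxp : ∀ i, f (Sum.inr (attT c p q r hpq hqr hpr, n, x i)) = f (Sum.inl p) := by
      intro i
      by_contra hcon
      have := star_small hf (Sum.inr (attT c p q r hpq hqr hpr, n, x i))
        (Finset.univ : Finset (Fin (2 * c)))
        (fun t => (Sum.inr (attT c p q r hpq hqr hpr, n, z i t) : W c))
        (by intro t t' h; simpa using h)
        (fun t _ => ⟨⟨rfl, rfl, Or.inl rfl⟩,
          h3 _ _ _ _ h1 hcon (hx i) (hz i t).2 (hz i t).1⟩)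
      rw [Finset.card_univ, Fintype.card_fin] at this
      omega
    apply spine hf (attT c p q r hpq hqr hpr) n
    intro i j _
    rw [hxp, hxp]

end main

/-- **Answer to Q1: no.**  Already for `γ = 0` and `k = 3`, no clustering bound works. -/
theorem result : ∀ c : ℕ, ∃ (V : Type) (_ : Finite V) (G : SimpleGraph V),
    G.CliqueFree 3 ∧ IsApex 3 G ∧ ∀ f : V → Fin 3, ¬ HasClustering G f c := by
  intro c
  exact ⟨W c, inferInstance, gW c, gW_cliqueFree c, gW_apex c, fun f hf => main f hf⟩

end Pool.Agent.Results.MP_01d970_co.ThreeApex
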